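import Pool.Agent.H64.EV.Targets

set_option autoImplicit false
set_option linter.unusedSectionVars false

open Matrix Pool.Agent.H64.CC Pool.Agent.H2.NL Pool.Agent.H64.EV

namespace Pool.Agent.H76.EV

variable {K : Type} [Field K] {I : Type} [Fintype I] [DecidableEq I]

private theorem sws_succ (o : I → Bool) (js : List ℕ) (t : List I → K) (a : I) :
    ∀ l : List I, sws o (js.map Nat.succ) t (a :: l) = sws o js (fun l' => t (a :: l')) l := by
  induction js with
  | nil => intro l; rfl
  | cons j js ih =>
    intro l
    change sw o j (fun l' => sws o (js.map Nat.succ) t (a :: l')) l =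
      sw o j (sws o js (fun l' => t (a :: l'))) l
    congr 1
    funext l'
    exact ih l'

private theorem sws_range_succ (o : I → Bool) (i : ℕ) (t : List I → K) (b a : I) (l : List I) :
    sws o (List.range (i + 1)) t (b :: a :: l) =
      ks K (o b) (o a) * sws o (List.range i) (fun l' => t (a :: l')) (b :: l) := by
  rw [List.range_succ_eq_map]
  change ks K (o b) (o a) * sws o ((List.range i).map Nat.succ) t (a :: b :: l) = _
  rw [sws_succ]

variable (F : OForm K I)

private theorem Pr_add (n : ℕ) : ∀ f f' g : List I → K,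
    F.Pr n (fun w => f w + f' w) g = F.Pr n f g + F.Pr n f' g := by
  induction n with
  | zero =>
    intro f f' g
    change (f [] + f' []) * g [] = f [] * g [] + f' [] * g []
    ring
  | succ n ih =>
    intro f f' g
    change ∑ a, F.c a * F.Pr n (fun l => f (a :: l) + f' (a :: l)) (fun l => g (F.st a :: l)) =
      ∑ a, F.c a * F.Pr n (fun l => f (a :: l)) (fun l => g (F.st a :: l)) +
      ∑ a, F.c a * F.Pr n (fun l => f' (a :: l)) (fun l => g (F.st a :: l))
    rw [← Finset.sum_add_distrib]
    refine Finset.sum_congr rfl fun a _ => ?_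
    rw [ih (fun l => f (a :: l)) (fun l => f' (a :: l)), mul_add]

private theorem Pr_sum {J : Type} (s : Finset J) (n : ℕ) : ∀ (f : J → List I → K)
    (g : List I → K), F.Pr n (fun w => ∑ i ∈ s, f i w) g = ∑ i ∈ s, F.Pr n (f i) g := by
  induction n with
  | zero =>
    intro f g
    change (∑ i ∈ s, f i []) * g [] = ∑ i ∈ s, f i [] * g []
    rw [Finset.sum_mul]
  | succ n ih =>
    intro f g
    change ∑ a, F.c a * F.Pr n (fun l => ∑ i ∈ s, f i (a :: l)) (fun l => g (F.st a :: l)) =
      ∑ i ∈ s, ∑ a, F.c a * F.Pr n (fun l => f i (a :: l)) (fun l => g (F.st a :: l))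
    rw [Finset.sum_comm]
    refine Finset.sum_congr rfl fun a _ => ?_
    rw [ih (fun i l => f i (a :: l)), Finset.mul_sum]

private theorem Pr_smul (s s' : K) (n : ℕ) : ∀ f g : List I → K,
    F.Pr n (fun w => s * f w) (fun w => s' * g w) = s * s' * F.Pr n f g := by
  induction n with
  | zero =>
    intro f g
    change s * f [] * (s' * g []) = s * s' * (f [] * g [])
    ring
  | succ n ih =>
    intro f g
    change ∑ a, F.c a * F.Pr n (fun l => s * f (a :: l)) (fun l => s' * g (F.st a :: l)) =
      s * s' * ∑ a, F.c a * F.Pr n (fun l => f (a :: l)) (fun l => g (F.st a :: l))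
    rw [Finset.mul_sum]
    refine Finset.sum_congr rfl fun a _ => ?_
    rw [ih (fun l => f (a :: l)) (fun l => g (F.st a :: l))]
    ring

private theorem Pr_smul' (s : K) (n : ℕ) (f g : List I → K) :
    F.Pr n (fun w => s * f w) g = s * F.Pr n f g := by
  have h := Pr_smul F s 1 n f g
  simpa only [one_mul, mul_one] using h

/-- the term `i + 1` -/
private theorem term (T : Matrix I I K) (hT : ∀ a b, T a b ≠ 0 → F.o a = F.o b) (n i : ℕ)
    (f g : List I → K) (e b : I) :
    F.c e * T e b * F.Pr (n + 1) (fun l => sws F.o (List.range (i + 1)) f (b :: l))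
      (fun l => sws F.o (List.range (i + 1)) g (F.st e :: l)) =
    ∑ a, F.c a * (F.c e * T e b * F.Pr n
      (fun l => sws F.o (List.range i) (fun l' => f (a :: l')) (b :: l))
      (fun l => sws F.o (List.range i) (fun l' => g (F.st a :: l')) (F.st e :: l))) := by
  by_cases h : T e b = 0
  · rw [h]
    simp
  · have ho : F.o e = F.o b := hT e b h
    change F.c e * T e b * ∑ a, F.c a * F.Pr n
      (fun l => sws F.o (List.range (i + 1)) f (b :: a :: l))
      (fun l => sws F.o (List.range (i + 1)) g (F.st e :: F.st a :: l)) = _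
    rw [Finset.mul_sum]
    refine Finset.sum_congr rfl fun a _ => ?_
    simp only [sws_range_succ]
    rw [Pr_smul F, F.o_st, F.o_st, ho, ks_mul_self]
    ring

theorem pf_ODE : T_ODE := by
  intro K _ I _ _ F T hT n
  induction n with
  | zero =>
    intro f g
    change der T f [] * g [] = ∑ i ∈ Finset.range 0, _
    rw [Finset.sum_range_zero]
    change (0 : K) * g [] = 0
    rw [zero_mul]
  | succ n ih =>
    intro f g
    rw [Finset.sum_range_succ', Nat.add_sub_cancel]
    change ∑ a, F.c a * F.Pr n (fun l => ∑ b, T a b * f (b :: l) +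
      der T (fun l' => f (a :: l')) l) (fun l => g (F.st a :: l)) = _ +
      ∑ e, ∑ b, F.c e * T e b * F.Pr n (fun l => f (b :: l)) (fun l => g (F.st e :: l))
    rw [add_comm, ← sub_eq_iff_eq_add', ← Finset.sum_sub_distrib]
    have h1 : ∀ a, F.c a * F.Pr n (fun l => ∑ b, T a b * f (b :: l) +
        der T (fun l' => f (a :: l')) l) (fun l => g (F.st a :: l)) -
        ∑ b, F.c a * T a b * F.Pr n (fun l => f (b :: l)) (fun l => g (F.st a :: l)) =
        F.c a * F.Pr n (der T (fun l' => f (a :: l'))) (fun l => g (F.st a :: l)) := by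
      intro a
      rw [Pr_add F n (fun l => ∑ b, T a b * f (b :: l)) (der T (fun l' => f (a :: l'))),
        Pr_sum F Finset.univ n (fun b l => T a b * f (b :: l)), mul_add, Finset.mul_sum]
      have h2 : ∑ b, F.c a * F.Pr n (fun l => T a b * f (b :: l)) (fun l => g (F.st a :: l)) =
          ∑ b, F.c a * T a b * F.Pr n (fun l => f (b :: l)) (fun l => g (F.st a :: l)) := by
        refine Finset.sum_congr rfl fun b _ => ?_
        rw [Pr_smul' F (T a b) n (fun l => f (b :: l)), mul_assoc]
      rw [h2]
      ring
    rw [Finset.sum_congr rfl fun a _ => h1 a,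
      Finset.sum_congr rfl fun a _ => by rw [ih (fun l' => f (a :: l')) (fun l => g (F.st a :: l))]]
    rcases n with _ | n
    · simp
    · simp only [Nat.add_sub_cancel, term F T hT n]
      simp only [Finset.mul_sum]
      rw [Finset.sum_comm]
      refine Finset.sum_congr rfl fun i _ => ?_
      rw [Finset.sum_comm]
      refine Finset.sum_congr rfl fun e _ => ?_
      rw [Finset.sum_comm]

end Pool.Agent.H76.EV
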